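import Mathlib

/-!
# A uniquely {1,2,3}-weight colourable graph

Every disjoint union of `m ≥ 1` triangles (in particular the triangle itself) has exactly one
edge {1,2,3}-weighting, up to isomorphism, that properly colours its vertices by sums.
-/

namespace Pool.Agent.Results.MP_9e9a14_co.TriangleUnique

open Finset Classical

/-- The vertex sum of the edge weighting `w` at `v`: the sum of the weights of the edges of `G`
that contain `v`.  (Values of `w` off the edge set of `G` play no role.) -/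
noncomputable def vertexSum {V : Type} [Fintype V] (G : SimpleGraph V) (w : Sym2 V → ℝ) (v : V) :
    ℝ :=
  ∑ e ∈ Finset.univ.filter (fun e : Sym2 V => e ∈ G.edgeSet ∧ v ∈ e), w e

/-- `w` is an edge `S`-weighting of `G` that properly colours the vertices by sums. -/
def IsProperWeighting {V : Type} [Fintype V] (S : Set ℝ) (G : SimpleGraph V) (w : Sym2 V → ℝ) :
    Prop :=
  (∀ e ∈ G.edgeSet, w e ∈ S) ∧ ∀ u v : V, G.Adj u v → vertexSum G w u ≠ vertexSum G w v

/-- Two edge weightings are isomorphic when an automorphism of `G` carries one to the other. -/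
def IsomorphicWeightings {V : Type} (G : SimpleGraph V) (w w' : Sym2 V → ℝ) : Prop :=
  ∃ φ : G ≃g G, ∀ e ∈ G.edgeSet, w' (e.map φ) = w e

/-- `G` is uniquely `S`-weight colourable. -/
def UniquelyWeightColourable {V : Type} [Fintype V] (S : Set ℝ) (G : SimpleGraph V) : Prop :=
  (∃ w, IsProperWeighting S G w) ∧
    ∀ w w', IsProperWeighting S G w → IsProperWeighting S G w' → IsomorphicWeightings G w w'

/-- The disjoint union of `m` triangles. -/
def triangles (m : ℕ) : SimpleGraph (Fin m × Fin 3) where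
  Adj x y := x.1 = y.1 ∧ x.2 ≠ y.2
  symm := ⟨fun _ _ h => ⟨h.1.symm, h.2.symm⟩⟩
  loopless := ⟨fun _ h => h.2 rfl⟩

lemma fin3_cases {j a : Fin 3} (h : a ≠ j) : a = j + 1 ∨ a = j + 2 := by
  revert h; revert j a; decide

lemma f11 : ∀ j : Fin 3, j + 1 + 1 = j + 2 := by decide
lemma f12 : ∀ j : Fin 3, j + 1 + 2 = j := by decide
lemma f21 : ∀ j : Fin 3, j + 2 + 1 = j := by decide
lemma f22 : ∀ j : Fin 3, j + 2 + 2 = j + 1 := by decide
lemma f01 : ∀ j : Fin 3, j ≠ j + 1 := by decide
lemma f02 : ∀ j : Fin 3, j ≠ j + 2 := by decide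
lemma f112 : ∀ j : Fin 3, j + 1 ≠ j + 2 := by decide

lemma edges_at (m : ℕ) (i : Fin m) (j : Fin 3) :
    Finset.univ.filter (fun e : Sym2 (Fin m × Fin 3) => e ∈ (triangles m).edgeSet ∧ (i, j) ∈ e) =
      {s((i, j), (i, j + 1)), s((i, j), (i, j + 2))} := by
  ext e
  simp only [Finset.mem_filter, Finset.mem_univ, true_and, Finset.mem_insert,
    Finset.mem_singleton]
  constructor
  · rintro ⟨he, hj⟩
    obtain ⟨⟨k, a⟩, rfl⟩ := Sym2.mem_iff_exists.1 hj
    rw [SimpleGraph.mem_edgeSet] at he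
    obtain ⟨h1, h2⟩ := he
    simp only at h1 h2
    subst h1
    rcases fin3_cases (Ne.symm h2) with h | h
    · left; rw [h]
    · right; rw [h]
  · rintro (h | h)
    · subst h
      refine ⟨?_, by simp⟩
      rw [SimpleGraph.mem_edgeSet]
      exact ⟨rfl, f01 j⟩
    · subst h
      refine ⟨?_, by simp⟩
      rw [SimpleGraph.mem_edgeSet]
      exact ⟨rfl, f02 j⟩

/-- Weight of the edge opposite to `(i, j)`. -/
noncomputable def opp {m : ℕ} (w : Sym2 (Fin m × Fin 3) → ℝ) (i : Fin m) (j : Fin 3) : ℝ :=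
  w s((i, j + 1), (i, j + 2))

lemma opp_one {m : ℕ} (w : Sym2 (Fin m × Fin 3) → ℝ) (i : Fin m) (j : Fin 3) :
    opp w i (j + 1) = w s((i, j), (i, j + 2)) := by
  rw [opp, f11, f12, Sym2.eq_swap]

lemma opp_two {m : ℕ} (w : Sym2 (Fin m × Fin 3) → ℝ) (i : Fin m) (j : Fin 3) :
    opp w i (j + 2) = w s((i, j), (i, j + 1)) := by
  rw [opp, f21, f22]

lemma vertexSum_triangles {m : ℕ} (w : Sym2 (Fin m × Fin 3) → ℝ) (i : Fin m) (j : Fin 3) :
    vertexSum (triangles m) w (i, j) = opp w i (j + 2) + opp w i (j + 1) := by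
  have h0 : vertexSum (triangles m) w (i, j) =
      ∑ e ∈ ({s((i, j), (i, j + 1)), s((i, j), (i, j + 2))} : Finset _), w e := by
    rw [vertexSum]
    apply Finset.sum_congr _ (fun _ _ => rfl)
    convert edges_at m i j
  rw [h0, Finset.sum_pair, opp_one, opp_two]
  intro h
  rw [Sym2.eq_iff] at h
  rcases h with ⟨_, h⟩ | ⟨h, _⟩
  · exact f112 j (Prod.mk.inj h).2
  · exact f02 j (Prod.mk.inj h).2

lemma opp_inj {m : ℕ} {w : Sym2 (Fin m × Fin 3) → ℝ}
    (hw : IsProperWeighting {1, 2, 3} (triangles m) w) (i : Fin m) :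
    Function.Injective (opp w i) := by
  have key : ∀ j : Fin 3, opp w i j ≠ opp w i (j + 1) := by
    intro j hj
    have hadj : (triangles m).Adj (i, j) (i, j + 1) := ⟨rfl, f01 j⟩
    apply hw.2 _ _ hadj
    rw [vertexSum_triangles, vertexSum_triangles]
    rw [f11, f12, hj]
    ring
  intro a b hab
  by_contra hne
  rcases fin3_cases hne with h | h
  · rw [h] at hab
    exact key b hab.symm
  · have h2 : b = a + 1 := by rw [h, f21]
    rw [h2] at hab
    exact key a hab

lemma opp_mem {m : ℕ} {w : Sym2 (Fin m × Fin 3) → ℝ}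
    (hw : IsProperWeighting {1, 2, 3} (triangles m) w) (i : Fin m) (j : Fin 3) :
    opp w i j ∈ ({1, 2, 3} : Finset ℝ) := by
  have := hw.1 s((i, j + 1), (i, j + 2)) (by
    rw [SimpleGraph.mem_edgeSet]
    exact ⟨rfl, f112 j⟩)
  simpa [opp] using this

lemma opp_surj {m : ℕ} {w : Sym2 (Fin m × Fin 3) → ℝ}
    (hw : IsProperWeighting {1, 2, 3} (triangles m) w) (i : Fin m) {x : ℝ}
    (hx : x ∈ ({1, 2, 3} : Finset ℝ)) : ∃ j, opp w i j = x := by
  have hsub : Finset.univ.image (opp w i) ⊆ ({1, 2, 3} : Finset ℝ) := by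
    intro y hy
    obtain ⟨j, _, rfl⟩ := Finset.mem_image.1 hy
    exact opp_mem hw i j
  have hcard : ({1, 2, 3} : Finset ℝ).card ≤ (Finset.univ.image (opp w i)).card := by
    rw [Finset.card_image_of_injective _ (opp_inj hw i)]
    exact Finset.card_le_three
  have heq := Finset.eq_of_subset_of_card_le hsub hcard
  rw [← heq] at hx
  obtain ⟨j, _, hj⟩ := Finset.mem_image.1 hx
  exact ⟨j, hj⟩

/-- The concrete weighting. -/
noncomputable def theW (m : ℕ) (e : Sym2 (Fin m × Fin 3)) : ℝ :=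
  if ∀ i : Fin m, (i, (0 : Fin 3)) ∉ e then 1
  else if ∀ i : Fin m, (i, (1 : Fin 3)) ∉ e then 2 else 3

lemma opp_theW0 (m : ℕ) (i : Fin m) : opp (theW m) i 0 = 1 := by
  have : ∀ k : Fin m, (k, (0 : Fin 3)) ∉ s((i, (0 : Fin 3) + 1), (i, (0 : Fin 3) + 2)) := by
    intro k hk
    simp at hk
  rw [opp, theW, if_pos this]

lemma opp_theW1 (m : ℕ) (i : Fin m) : opp (theW m) i 1 = 2 := by
  have h0 : ¬ ∀ k : Fin m, (k, (0 : Fin 3)) ∉ s((i, (1 : Fin 3) + 1), (i, (1 : Fin 3) + 2)) := by
    intro h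
    exact h i (by simp [show (1 : Fin 3) + 2 = 0 by decide])
  have h1 : ∀ k : Fin m, (k, (1 : Fin 3)) ∉ s((i, (1 : Fin 3) + 1), (i, (1 : Fin 3) + 2)) := by
    intro k hk
    have e1 : (1 : Fin 3) + 1 = 2 := by decide
    have e2 : (1 : Fin 3) + 2 = 0 := by decide
    rw [e1, e2, Sym2.mem_iff] at hk
    rcases hk with hk | hk
    · exact absurd (Prod.mk.inj hk).2 (by decide)
    · exact absurd (Prod.mk.inj hk).2 (by decide)
  rw [opp, theW, if_neg h0, if_pos h1]

lemma opp_theW2 (m : ℕ) (i : Fin m) : opp (theW m) i 2 = 3 := by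
  have h0 : ¬ ∀ k : Fin m, (k, (0 : Fin 3)) ∉ s((i, (2 : Fin 3) + 1), (i, (2 : Fin 3) + 2)) := by
    intro h
    exact h i (by simp [show (2 : Fin 3) + 1 = 0 by decide])
  have h1 : ¬ ∀ k : Fin m, (k, (1 : Fin 3)) ∉ s((i, (2 : Fin 3) + 1), (i, (2 : Fin 3) + 2)) := by
    intro h
    exact h i (by simp [show (2 : Fin 3) + 2 = 1 by decide])
  rw [opp, theW, if_neg h0, if_neg h1]

lemma opp_theW (m : ℕ) (i : Fin m) (j : Fin 3) :
    opp (theW m) i j = if j = 0 then 1 else if j = 1 then 2 else 3 := by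
  have hj : j = 0 ∨ j = 1 ∨ j = 2 := by revert j; decide
  rcases hj with h | h | h
  · rw [h, opp_theW0]; simp
  · rw [h, opp_theW1]; simp
  · rw [h, opp_theW2]; simp

lemma theW_proper (m : ℕ) : IsProperWeighting {1, 2, 3} (triangles m) (theW m) := by
  refine ⟨?_, ?_⟩
  · intro e _
    simp only [theW]
    split_ifs <;> simp
  · rintro ⟨i, a⟩ ⟨k, b⟩ ⟨h1, h2⟩
    simp only at h1 h2
    subst h1
    rw [vertexSum_triangles, vertexSum_triangles]
    simp only [opp_theW]
    fin_cases a <;> fin_cases b <;> first | exact absurd rfl h2 | skip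
    all_goals
      simp [show (1 : Fin 3) + 1 = 2 by decide, show (1 : Fin 3) + 2 = 0 by decide,
        show (2 : Fin 3) + 1 = 0 by decide, show (2 : Fin 3) + 2 = 1 by decide]
      try norm_num

/-- For every `m`, the disjoint union of `m` triangles is uniquely {1,2,3}-weight colourable; for
`m ≥ 1` it has an edge. -/
theorem result : ∀ m : ℕ, 1 ≤ m →
    (∃ u v, (triangles m).Adj u v) ∧ UniquelyWeightColourable {1, 2, 3} (triangles m) := by
  intro m hm
  refine ⟨⟨(⟨0, hm⟩, 0), (⟨0, hm⟩, 1), rfl, f01 0⟩, ⟨theW m, theW_proper m⟩, ?_⟩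
  intro w w' hw hw'
  have hex : ∀ (i : Fin m) (j : Fin 3), ∃ k : Fin 3, opp w' i k = opp w i j := fun i j =>
    opp_surj hw' i (opp_mem hw i j)
  choose s hs using hex
  have hsinj : ∀ i, Function.Injective (s i) := by
    intro i a b hab
    apply opp_inj hw i
    rw [← hs, ← hs, hab]
  let e : (Fin m × Fin 3) ≃ (Fin m × Fin 3) :=
    Equiv.ofBijective (fun x => (x.1, s x.1 x.2)) (by
      rw [← Finite.injective_iff_bijective]
      rintro ⟨i, a⟩ ⟨k, b⟩ h
      have h1 := (Prod.mk.inj h).1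
      have h2 := (Prod.mk.inj h).2
      simp only at h1 h2
      subst h1
      rw [hsinj i h2])
  have he : ∀ i a, e (i, a) = (i, s i a) := fun i a => rfl
  refine ⟨⟨e, ?_⟩, ?_⟩
  · rintro ⟨i, a⟩ ⟨k, b⟩
    rw [he, he]
    constructor
    · rintro ⟨h1, h2⟩
      refine ⟨h1, ?_⟩
      simp only at h1 h2 ⊢
      subst h1
      intro hab
      exact h2 (by rw [hab])
    · rintro ⟨h1, h2⟩
      refine ⟨h1, ?_⟩
      simp only at h1 h2 ⊢
      subst h1
      intro hab
      exact h2 (hsinj i hab)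
  · intro f hf
    induction f using Sym2.ind with
    | _ x y =>
      obtain ⟨i, a⟩ := x
      obtain ⟨k, b⟩ := y
      rw [SimpleGraph.mem_edgeSet] at hf
      obtain ⟨h1, h2⟩ := hf
      simp only at h1 h2
      subst h1
      show w' s(e (i, a), e (i, b)) = w s((i, a), (i, b))
      rw [he, he]
      -- the third vertex
      obtain ⟨c, hc⟩ : ∃ c : Fin 3, (a = c + 1 ∧ b = c + 2) ∨ (a = c + 2 ∧ b = c + 1) := by
        revert h2; revert a b; decide
      have hws : w s((i, a), (i, b)) = opp w i c := by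
        rcases hc with ⟨ha, hb⟩ | ⟨ha, hb⟩
        · rw [ha, hb]; rfl
        · rw [ha, hb, Sym2.eq_swap]; rfl
      have hsc : (s i a = s i c + 1 ∧ s i b = s i c + 2) ∨ (s i a = s i c + 2 ∧ s i b = s i c + 1) := by
        have n1 : s i a ≠ s i b := fun h => h2 (hsinj i h)
        have n2 : s i a ≠ s i c := fun h => by
          have := hsinj i h
          rcases hc with ⟨ha, _⟩ | ⟨ha, _⟩
          · exact f01 c (ha ▸ this).symm
          · exact f02 c (ha ▸ this).symm
        have n3 : s i b ≠ s i c := fun h => by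
          have := hsinj i h
          rcases hc with ⟨_, hb⟩ | ⟨_, hb⟩
          · exact f02 c (hb ▸ this).symm
          · exact f01 c (hb ▸ this).symm
        revert n1 n2 n3
        generalize s i a = x
        generalize s i b = y
        generalize s i c = z
        revert x y z
        decide
      have hws' : w' s((i, s i a), (i, s i b)) = opp w' i (s i c) := by
        rcases hsc with ⟨ha, hb⟩ | ⟨ha, hb⟩
        · rw [ha, hb]; rfl
        · rw [ha, hb, Sym2.eq_swap]; rfl
      rw [hws, hws', hs]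

end Pool.Agent.Results.MP_9e9a14_co.TriangleUnique
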